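import Pool.Agent.H663R2.SkewC

/-!
# Skew-supermodular colouring with two prescribed class sizes is matroid intersection

A feasible partition (`m₁` classes of size `n₁`, `m₂` classes of size `n₂`, `n₂ ≤ n₁`) exists if and
only if two explicit matroids on the ground set have a common independent set of size `m₁ n₁`;
this gives a min-max condition of Folkman-Fulkerson type and a linear programming formulation.
-/

namespace Pool.Agent.Results.MP_1195b1_lc.MatroidIntersection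

open Finset Pool.Agent.H663R2.Skew

variable {S : Type*} [Fintype S] [DecidableEq S]

/-- Skew-supermodular integer set functions. -/
def SkewSupermodular (p : Finset S → ℤ) : Prop :=
  ∀ X Y : Finset S, p X + p Y ≤ p (X ∩ Y) + p (X ∪ Y) ∨ p X + p Y ≤ p (X \ Y) + p (Y \ X)

/-- The inputs of the problem: the numbers `m₁, m₂, n₁, n₂` are positive with
`m₁ n₁ + m₂ n₂ = |S|`, and `p₁, p₂` are skew-supermodular with
`max (p₁ X) (p₂ X) ≤ min |X| (m₁ + m₂)` for all `X`. -/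
structure IsInput (m₁ m₂ n₁ n₂ : ℕ) (p₁ p₂ : Finset S → ℤ) : Prop where
  hm₁ : 0 < m₁
  hm₂ : 0 < m₂
  hn₁ : 0 < n₁
  hn₂ : 0 < n₂
  size : m₁ * n₁ + m₂ * n₂ = Fintype.card S
  skew₁ : SkewSupermodular p₁
  skew₂ : SkewSupermodular p₂
  bound : ∀ X : Finset S, max (p₁ X) (p₂ X) ≤ min (X.card : ℤ) ((m₁ + m₂ : ℕ) : ℤ)

/-- There is a feasible partition: a partition `P` of the ground set with `m₁` classes (those in
`Q`) of size `n₁` and `m₂` classes (the other ones) of size `n₂`, such that every set `X` meets at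
least `max (p₁ X) (p₂ X)` classes. -/
def Feasible (m₁ m₂ n₁ n₂ : ℕ) (p₁ p₂ : Finset S → ℤ) : Prop :=
  ∃ P : Finpartition (Finset.univ : Finset S), ∃ Q ⊆ P.parts,
    Q.card = m₁ ∧ (P.parts \ Q).card = m₂ ∧ (∀ Y ∈ Q, Y.card = n₁) ∧
    (∀ Y ∈ P.parts \ Q, Y.card = n₂) ∧
    ∀ X : Finset S,
      max (p₁ X) (p₂ X) ≤ ((P.parts.filter fun Y => (Y ∩ X).Nonempty).card : ℤ)

/-- The independent sets of the matroid of `p` and `m`. -/
def IndepSet (m : ℕ) (p : Finset S → ℤ) (A : Finset S) : Prop :=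
  ∀ X : Finset S, p X ≤ ((X \ A).card : ℤ) + m

lemma skewOn_univ {p : Finset S → ℤ} (h : SkewSupermodular p) : SkewOn univ p :=
  fun X _ Y _ => h X Y

lemma feasible_symm {m₁ m₂ n₁ n₂ : ℕ} {p₁ p₂ : Finset S → ℤ} (h : Feasible m₁ m₂ n₁ n₂ p₁ p₂) :
    Feasible m₂ m₁ n₂ n₁ p₁ p₂ := by
  obtain ⟨P, Q, hQ, h1, h2, h3, h4, h5⟩ := h
  have e : P.parts \ (P.parts \ Q) = Q := Finset.sdiff_sdiff_eq_self hQ
  exact ⟨P, P.parts \ Q, Finset.sdiff_subset, h2, by rw [e]; exact h1, h4,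
    by rw [e]; exact h3, h5⟩

/-- Necessity: the union of the large classes. -/
lemma exists_indep_of_feasible {m₁ m₂ n₁ n₂ : ℕ} {p₁ p₂ : Finset S → ℤ}
    (h : Feasible m₁ m₂ n₁ n₂ p₁ p₂) :
    ∃ A : Finset S, IndepSet m₁ p₁ A ∧ IndepSet m₁ p₂ A ∧ A.card = m₁ * n₁ := by
  classical
  obtain ⟨P, Q, hQ, h1, h2, h3, h4, h5⟩ := h
  have key : ∀ X : Finset S, ((P.parts.filter fun Y => (Y ∩ X).Nonempty).card : ℤ) ≤
      ((X \ Q.biUnion id).card : ℤ) + m₁ := by
    intro X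
    have e1 : P.parts.filter (fun Y => (Y ∩ X).Nonempty) ⊆
        Q ∪ (P.parts \ Q).filter fun Y => (Y ∩ X).Nonempty := by
      intro Y hY
      obtain ⟨hY1, hY2⟩ := Finset.mem_filter.mp hY
      by_cases hYQ : Y ∈ Q
      · exact Finset.mem_union_left _ hYQ
      · exact Finset.mem_union_right _ (Finset.mem_filter.mpr
          ⟨Finset.mem_sdiff.mpr ⟨hY1, hYQ⟩, hY2⟩)
    have e2 := (Finset.card_le_card e1).trans (Finset.card_union_le _ _)
    rw [h1] at e2
    have e3 : ((P.parts \ Q).filter fun Y => (Y ∩ X).Nonempty).card ≤ (X \ Q.biUnion id).card := by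
      have hsel : ∀ Y ∈ (P.parts \ Q).filter (fun Y => (Y ∩ X).Nonempty), ∃ x, x ∈ Y ∩ X := by
        intro Y hY
        exact (Finset.mem_filter.mp hY).2
      rcases Finset.eq_empty_or_nonempty ((P.parts \ Q).filter fun Y => (Y ∩ X).Nonempty) with
        hemp | ⟨Y₀, hY₀⟩
      · rw [hemp]; simp
      have : Nonempty S := ⟨(hsel Y₀ hY₀).choose⟩
      choose! f hf using hsel
      apply Finset.card_le_card_of_injOn f
      · intro Y hY
        have hY' := Finset.mem_coe.mp hY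
        have hx := Finset.mem_inter.mp (hf Y hY')
        obtain ⟨hY1, hY2⟩ := Finset.mem_sdiff.mp (Finset.mem_filter.mp hY').1
        refine Finset.mem_coe.mpr (Finset.mem_sdiff.mpr ⟨hx.2, ?_⟩)
        intro hmem
        obtain ⟨Z, hZ, hxZ⟩ := Finset.mem_biUnion.mp hmem
        have hYZ : Y = Z := by
          by_contra hne
          have := P.disjoint (Finset.mem_coe.mpr hY1) (Finset.mem_coe.mpr (hQ hZ)) hne
          exact Finset.disjoint_left.mp this hx.1 hxZ
        exact hY2 (hYZ ▸ hZ)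
      · intro Y hY Z hZ hYZ
        have hY' := Finset.mem_coe.mp hY
        have hZ' := Finset.mem_coe.mp hZ
        have hx := Finset.mem_inter.mp (hf Y hY')
        have hx' := Finset.mem_inter.mp (hf Z hZ')
        obtain ⟨hY1, hY2⟩ := Finset.mem_sdiff.mp (Finset.mem_filter.mp hY').1
        obtain ⟨hZ1, hZ2⟩ := Finset.mem_sdiff.mp (Finset.mem_filter.mp hZ').1
        by_contra hne
        have := P.disjoint (Finset.mem_coe.mpr hY1) (Finset.mem_coe.mpr hZ1) hne
        exact Finset.disjoint_left.mp this hx.1 (hYZ ▸ hx'.1)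
    omega
  refine ⟨Q.biUnion id, ?_, ?_, ?_⟩
  · intro X
    exact (le_max_left _ _).trans ((h5 X).trans (key X))
  · intro X
    exact (le_max_right _ _).trans ((h5 X).trans (key X))
  · rw [Finset.card_biUnion]
    · rw [Finset.sum_congr rfl (fun Y hY => by rw [id, h3 Y hY]), Finset.sum_const, h1,
        smul_eq_mul]
    · intro Y hY Z hZ hne
      exact P.disjoint (Finset.mem_coe.mpr (hQ hY)) (Finset.mem_coe.mpr (hQ hZ)) hne

/-- The min-max condition. -/
def MinMax (m₁ m₂ n₂ : ℕ) (p₁ p₂ : Finset S → ℤ) : Prop :=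
  ∀ F G : Finset (Finset S), (F : Set (Finset S)).PairwiseDisjoint id →
    (G : Set (Finset S)).PairwiseDisjoint id →
    ∑ X ∈ F, (p₁ X - (m₁ : ℤ)) + ∑ Y ∈ G, (p₂ Y - (m₁ : ℤ)) ≤
      ((m₂ * n₂ : ℕ) : ℤ) + ((F.biUnion id ∩ G.biUnion id).card : ℤ)

/-- The linear programming condition. -/
def LP (m₁ m₂ n₂ : ℕ) (p₁ p₂ : Finset S → ℤ) : Prop :=
  ∃ y : S → ℝ, (∀ s, 0 ≤ y s ∧ y s ≤ 1) ∧ ∑ s, y s = ((m₂ * n₂ : ℕ) : ℝ) ∧
    ∀ X : Finset S, (p₁ X : ℝ) - m₁ ≤ ∑ s ∈ X, y s ∧ (p₂ X : ℝ) - m₁ ≤ ∑ s ∈ X, y s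

omit [Fintype S] in
lemma sum_le_of_indep {m : ℕ} {p : Finset S → ℤ} {A : Finset S} (hA : IndepSet m p A)
    {F : Finset (Finset S)} (hF : (F : Set (Finset S)).PairwiseDisjoint id) :
    ∑ X ∈ F, (p X - (m : ℤ)) ≤ ((F.biUnion id \ A).card : ℤ) := by
  have h1 : ∑ X ∈ F, (p X - (m : ℤ)) ≤ ∑ X ∈ F, ((X \ A).card : ℤ) :=
    Finset.sum_le_sum fun X _ => by have := hA X; linarith
  have h2 : (F.biUnion id \ A).card = ∑ X ∈ F, (X \ A).card := by
    rw [← Finset.card_biUnion]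
    · congr 1
      ext x
      simp only [mem_sdiff, mem_biUnion, id]
      constructor
      · rintro ⟨⟨X, hX, hx⟩, hxA⟩; exact ⟨X, hX, hx, hxA⟩
      · rintro ⟨X, hX, hx, hxA⟩; exact ⟨⟨X, hX, hx⟩, hxA⟩
    · intro X hX Y hY hne
      exact (hF (Finset.mem_coe.mpr hX) (Finset.mem_coe.mpr hY) hne).mono Finset.sdiff_subset
        Finset.sdiff_subset
  rw [h2]
  push_cast
  exact h1

lemma minmax_of_indep {m₁ m₂ n₁ n₂ : ℕ} {p₁ p₂ : Finset S → ℤ}
    (hsize : m₁ * n₁ + m₂ * n₂ = Fintype.card S) {A : Finset S} (h1 : IndepSet m₁ p₁ A)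
    (h2 : IndepSet m₁ p₂ A) (hA : A.card = m₁ * n₁) : MinMax m₁ m₂ n₂ p₁ p₂ := by
  intro F G hF hG
  have k1 := sum_le_of_indep h1 hF
  have k2 := sum_le_of_indep h2 hG
  have k3 := Finset.card_union_add_card_inter (F.biUnion id \ A) (G.biUnion id \ A)
  have k4 : (F.biUnion id \ A ∪ G.biUnion id \ A).card ≤ m₂ * n₂ := by
    have : (univ \ A).card = m₂ * n₂ := by
      rw [← Finset.compl_eq_univ_sdiff, Finset.card_compl, hA, ← hsize]
      omega
    rw [← this]
    apply Finset.card_le_card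
    intro x hx
    simp only [mem_union, mem_sdiff] at hx
    simp only [mem_sdiff, mem_univ, true_and]
    tauto
  have k5 : (F.biUnion id \ A ∩ (G.biUnion id \ A)).card ≤ (F.biUnion id ∩ G.biUnion id).card :=
    Finset.card_le_card (Finset.inter_subset_inter Finset.sdiff_subset Finset.sdiff_subset)
  omega

lemma lp_of_indep {m₁ m₂ n₁ n₂ : ℕ} {p₁ p₂ : Finset S → ℤ}
    (hsize : m₁ * n₁ + m₂ * n₂ = Fintype.card S) {A : Finset S} (h1 : IndepSet m₁ p₁ A)
    (h2 : IndepSet m₁ p₂ A) (hA : A.card = m₁ * n₁) : LP m₁ m₂ n₂ p₁ p₂ := by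
  have hsum : ∀ X : Finset S, ∑ s ∈ X, (if s ∈ univ \ A then (1 : ℝ) else 0) = ((X \ A).card : ℝ) := by
    intro X
    rw [← card_le_real]
    congr 2
    ext x
    simp only [mem_inter, mem_sdiff, mem_univ, true_and]
    tauto
  refine ⟨fun s => if s ∈ univ \ A then (1 : ℝ) else 0, ?_, ?_, ?_⟩
  · intro s
    dsimp only
    split_ifs <;> norm_num
  · rw [hsum]
    congr 1
    rw [← Finset.compl_eq_univ_sdiff, Finset.card_compl, hA, ← hsize]
    omega
  · intro X
    rw [hsum]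
    have k1 := h1 X
    have k2 := h2 X
    have k1' : (p₁ X : ℝ) ≤ ((X \ A).card : ℝ) + m₁ := by exact_mod_cast k1
    have k2' : (p₂ X : ℝ) ≤ ((X \ A).card : ℝ) + m₁ := by exact_mod_cast k2
    constructor <;> linarith

lemma bounds {m₁ m₂ n₁ n₂ : ℕ} {p₁ p₂ : Finset S → ℤ} (h : IsInput m₁ m₂ n₁ n₂ p₁ p₂) :
    (∀ X ⊆ (univ : Finset S), p₁ X ≤ (X.card : ℤ)) ∧
    (∀ X ⊆ (univ : Finset S), p₂ X ≤ (X.card : ℤ)) ∧
    (∀ X ⊆ (univ : Finset S), p₁ X ≤ ((m₁ + m₂ : ℕ) : ℤ)) ∧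
    (∀ X ⊆ (univ : Finset S), p₂ X ≤ ((m₁ + m₂ : ℕ) : ℤ)) := by
  refine ⟨?_, ?_, ?_, ?_⟩ <;> intro X _ <;> have := h.bound X
  · exact (le_max_left _ _).trans (this.trans (min_le_left _ _))
  · exact (le_max_right _ _).trans (this.trans (min_le_left _ _))
  · exact (le_max_left _ _).trans (this.trans (min_le_right _ _))
  · exact (le_max_right _ _).trans (this.trans (min_le_right _ _))

omit [Fintype S] in
lemma family_sum (p : Finset S → ℤ) (m : ℕ) {F : Finset (Finset S)} {V : Finset S}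
    (hF : ∀ T ∈ F, ∀ R ∈ F, T ≠ R → Disjoint T R) :
    ∑ T ∈ F, (sh p m T - ((T \ V).card : ℤ)) =
      ∑ T ∈ F, (p T - (m : ℤ)) - ((F.biUnion id \ V).card : ℤ) := by
  rw [Finset.sum_sub_distrib]
  congr 1
  have h2 : (F.biUnion id \ V).card = ∑ X ∈ F, (X \ V).card := by
    rw [← Finset.card_biUnion]
    · congr 1
      ext x
      simp only [mem_sdiff, mem_biUnion, id]
      constructor
      · rintro ⟨⟨X, hX, hx⟩, hxA⟩; exact ⟨X, hX, hx, hxA⟩
      · rintro ⟨X, hX, hx, hxA⟩; exact ⟨⟨X, hX, hx⟩, hxA⟩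
    · intro X hX Y hY hne
      exact (hF X hX Y hY hne).mono Finset.sdiff_subset Finset.sdiff_subset
  rw [h2]
  push_cast
  rfl

lemma upper_of_minmax {m₁ m₂ n₁ n₂ : ℕ} {p₁ p₂ : Finset S → ℤ} (h : IsInput m₁ m₂ n₁ n₂ p₁ p₂)
    (hm : MinMax m₁ m₂ n₂ p₁ p₂) : ∀ X ⊆ (univ : Finset S),
      low univ (sh p₁ m₁) X + low univ (sh p₂ m₁) (univ \ X) + m₁ * n₁ ≤
        (univ : Finset S).card := by
  intro X hX
  obtain ⟨b1, b2, _, _⟩ := bounds h
  obtain ⟨F, hF1, hF2, hF3⟩ := low_formula (skew_sh (skewOn_univ h.skew₁) m₁)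
    (cov_univ_sh b1 m₁) hX
  obtain ⟨G, hG1, hG2, hG3⟩ := low_formula (skew_sh (skewOn_univ h.skew₂) m₁)
    (cov_univ_sh b2 m₁) (V := univ \ X) Finset.sdiff_subset
  rw [family_sum p₁ m₁ hF2] at hF3
  rw [family_sum p₂ m₁ hG2] at hG3
  have k := hm F G (fun T hT R hR hne => hF2 T hT R hR hne) (fun T hT R hR hne => hG2 T hT R hR hne)
  have k2 : (F.biUnion id ∩ G.biUnion id).card ≤
      (F.biUnion id \ X).card + (G.biUnion id \ (univ \ X)).card := by
    refine le_trans ?_ (Finset.card_union_le _ _)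
    apply Finset.card_le_card
    intro x hx
    obtain ⟨h1, h2⟩ := Finset.mem_inter.mp hx
    by_cases hxX : x ∈ X
    · exact Finset.mem_union_right _ (Finset.mem_sdiff.mpr ⟨h2, fun h' =>
        (Finset.mem_sdiff.mp h').2 hxX⟩)
    · exact Finset.mem_union_left _ (Finset.mem_sdiff.mpr ⟨h1, hxX⟩)
  rw [Finset.card_univ, ← h.size]
  omega

lemma upper_of_lp {m₁ m₂ n₁ n₂ : ℕ} {p₁ p₂ : Finset S → ℤ} (h : IsInput m₁ m₂ n₁ n₂ p₁ p₂)
    (hm : LP m₁ m₂ n₂ p₁ p₂) : ∀ X ⊆ (univ : Finset S),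
      low univ (sh p₁ m₁) X + low univ (sh p₂ m₁) (univ \ X) + m₁ * n₁ ≤
        (univ : Finset S).card := by
  intro X hX
  obtain ⟨b1, b2, _, _⟩ := bounds h
  obtain ⟨y, hy, hsum, hy2⟩ := hm
  have k1 := low_le_real (skew_sh (skewOn_univ h.skew₁) m₁) (cov_univ_sh b1 m₁)
    (fun s => (hy s).1) (fun s => (hy s).2) (fun Z _ => by
      have := (hy2 Z).1
      unfold sh; push_cast; exact this) hX
  have k2 := low_le_real (skew_sh (skewOn_univ h.skew₂) m₁) (cov_univ_sh b2 m₁)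
    (fun s => (hy s).1) (fun s => (hy s).2) (fun Z _ => by
      have := (hy2 Z).2
      unfold sh; push_cast; exact this) (V := univ \ X) Finset.sdiff_subset
  have k3 := Finset.sum_sdiff (f := y) hX
  have k4 : ((low univ (sh p₁ m₁) X + low univ (sh p₂ m₁) (univ \ X) : ℕ) : ℝ) ≤
      ((m₂ * n₂ : ℕ) : ℝ) := by
    rw [← hsum, ← k3]
    push_cast
    linarith
  have k5 : low univ (sh p₁ m₁) X + low univ (sh p₂ m₁) (univ \ X) ≤ m₂ * n₂ := by
    exact_mod_cast k4
  rw [Finset.card_univ, ← h.size]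
  omega

/-- Sufficiency. -/
lemma feasible_of_upper {m₁ m₂ n₁ n₂ : ℕ} {p₁ p₂ : Finset S → ℤ} (h : IsInput m₁ m₂ n₁ n₂ p₁ p₂)
    (hn : n₂ ≤ n₁) (hup : ∀ X ⊆ (univ : Finset S),
      low univ (sh p₁ m₁) X + low univ (sh p₂ m₁) (univ \ X) + m₁ * n₁ ≤
        (univ : Finset S).card) : Feasible m₁ m₂ n₁ n₂ p₁ p₂ := by
  classical
  obtain ⟨b1, b2, b3, b4⟩ := bounds h
  obtain ⟨A, hAU, hAc, a1, a2, a3, a4⟩ := exists_set' (skewOn_univ h.skew₁) (skewOn_univ h.skew₂)
    b1 b2 b3 b4 (by have := h.hm₁; omega) (m₁ * n₁) (by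
      rw [Finset.card_univ, ← h.size]
      have : m₁ * (m₂ * n₂) ≤ m₁ * (m₂ * n₁) :=
        Nat.mul_le_mul_left _ (Nat.mul_le_mul_left _ hn)
      nlinarith) hup
  have hAc' : (univ \ A).card = m₂ * n₂ := by
    rw [← Finset.compl_eq_univ_sdiff, Finset.card_compl, hAc, ← h.size]
    omega
  obtain ⟨f, g, f1, g1, f2, g2, hfg⟩ := exists_two_colouring (skewOn_univ h.skew₁)
    (skewOn_univ h.skew₂) b1 b2 b3 b4 hAU hAc hAc' a1 a2 a3 a4
  -- the classes
  let FA : ℕ → Finset S := fun j => A.filter fun s => f s = j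
  let FB : ℕ → Finset S := fun j => (univ \ A).filter fun s => g s = j
  have hFA : ∀ j s, s ∈ FA j ↔ s ∈ A ∧ f s = j := by intro j s; simp [FA]
  have hFB : ∀ j s, s ∈ FB j ↔ s ∉ A ∧ g s = j := by intro j s; simp [FB]
  have hFAc : ∀ j < m₁, (FA j).card = n₁ := f2
  have hFBc : ∀ j < m₂, (FB j).card = n₂ := g2
  have hFAne : ∀ j < m₁, (FA j).Nonempty := fun j hj => by
    rw [← Finset.card_pos, hFAc j hj]; exact h.hn₁
  have hFBne : ∀ j < m₂, (FB j).Nonempty := fun j hj => by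
    rw [← Finset.card_pos, hFBc j hj]; exact h.hn₂
  let Q : Finset (Finset S) := (Finset.range m₁).image FA
  let R : Finset (Finset S) := (Finset.range m₂).image FB
  have hQ : ∀ Y, Y ∈ Q ↔ ∃ j < m₁, FA j = Y := by intro Y; simp [Q]
  have hR : ∀ Y, Y ∈ R ↔ ∃ j < m₂, FB j = Y := by intro Y; simp [R]
  have hinjA : ∀ i < m₁, ∀ j < m₁, FA i = FA j → i = j := by
    intro i hi j hj hij
    obtain ⟨s, hs⟩ := hFAne i hi
    have h1 := ((hFA i s).mp hs).2
    rw [hij] at hs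
    have h2 := ((hFA j s).mp hs).2
    rw [← h1, ← h2]
  have hinjB : ∀ i < m₂, ∀ j < m₂, FB i = FB j → i = j := by
    intro i hi j hj hij
    obtain ⟨s, hs⟩ := hFBne i hi
    have h1 := ((hFB i s).mp hs).2
    rw [hij] at hs
    have h2 := ((hFB j s).mp hs).2
    rw [← h1, ← h2]
  have hQR : Disjoint Q R := by
    rw [Finset.disjoint_left]
    intro Y hY hY'
    obtain ⟨i, hi, rfl⟩ := (hQ _).mp hY
    obtain ⟨j, hj, hij⟩ := (hR _).mp hY'
    obtain ⟨s, hs⟩ := hFAne i hi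
    have h1 := ((hFA i s).mp hs).1
    rw [← hij] at hs
    exact ((hFB j s).mp hs).1 h1
  let P : Finpartition (univ : Finset S) := Finpartition.ofExistsUnique (Q ∪ R)
    (fun _ _ => Finset.subset_univ _) (by
      intro s _
      by_cases hs : s ∈ A
      · refine ⟨FA (f s), ⟨Finset.mem_union_left _ ((hQ _).mpr ⟨f s, f1 s hs, rfl⟩),
          (hFA _ _).mpr ⟨hs, rfl⟩⟩, ?_⟩
        rintro Y ⟨hY, hsY⟩
        rcases Finset.mem_union.mp hY with hY | hY
        · obtain ⟨j, hj, rfl⟩ := (hQ _).mp hY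
          rw [((hFA j s).mp hsY).2]
        · obtain ⟨j, hj, rfl⟩ := (hR _).mp hY
          exact absurd hs ((hFB j s).mp hsY).1
      · refine ⟨FB (g s), ⟨Finset.mem_union_right _ ((hR _).mpr ⟨g s, g1 s
          (Finset.mem_sdiff.mpr ⟨Finset.mem_univ _, hs⟩), rfl⟩), (hFB _ _).mpr ⟨hs, rfl⟩⟩, ?_⟩
        rintro Y ⟨hY, hsY⟩
        rcases Finset.mem_union.mp hY with hY | hY
        · obtain ⟨j, hj, rfl⟩ := (hQ _).mp hY
          exact absurd ((hFA j s).mp hsY).1 hs
        · obtain ⟨j, hj, rfl⟩ := (hR _).mp hY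
          rw [((hFB j s).mp hsY).2])
    (by
      intro hmem
      rcases Finset.mem_union.mp hmem with hY | hY
      · obtain ⟨j, hj, hj'⟩ := (hQ _).mp hY
        exact (hFAne j hj).ne_empty hj'
      · obtain ⟨j, hj, hj'⟩ := (hR _).mp hY
        exact (hFBne j hj).ne_empty hj')
  have hPparts : P.parts = Q ∪ R := rfl
  have hPQ : P.parts \ Q = R := by
    rw [hPparts, Finset.union_sdiff_left, Finset.sdiff_eq_self_of_disjoint hQR.symm]
  refine ⟨P, Q, by rw [hPparts]; exact Finset.subset_union_left, ?_, ?_, ?_, ?_, ?_⟩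
  · rw [Finset.card_image_of_injOn, Finset.card_range]
    intro i hi j hj hij
    exact hinjA i (by simpa using hi) j (by simpa using hj) hij
  · rw [hPQ, Finset.card_image_of_injOn, Finset.card_range]
    intro i hi j hj hij
    exact hinjB i (by simpa using hi) j (by simpa using hj) hij
  · intro Y hY
    obtain ⟨j, hj, rfl⟩ := (hQ _).mp hY
    exact hFAc j hj
  · intro Y hY
    rw [hPQ] at hY
    obtain ⟨j, hj, rfl⟩ := (hR _).mp hY
    exact hFBc j hj
  · intro X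
    have hk := hfg X (Finset.subset_univ _)
    have hcount : ((A ∩ X).image f).card + ((X \ A).image g).card ≤
        (P.parts.filter fun Y => (Y ∩ X).Nonempty).card := by
      have c1 : ((A ∩ X).image f).card = (((A ∩ X).image f).image FA).card := by
        refine (Finset.card_image_of_injOn (s := (A ∩ X).image f) (f := FA) ?_).symm
        intro i hi j hj hij
        obtain ⟨s, hs, rfl⟩ := Finset.mem_image.mp (Finset.mem_coe.mp hi)
        obtain ⟨t, ht, rfl⟩ := Finset.mem_image.mp (Finset.mem_coe.mp hj)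
        exact hinjA _ (f1 s (Finset.mem_inter.mp hs).1) _ (f1 t (Finset.mem_inter.mp ht).1) hij
      have c2 : ((X \ A).image g).card = (((X \ A).image g).image FB).card := by
        refine (Finset.card_image_of_injOn (s := (X \ A).image g) (f := FB) ?_).symm
        intro i hi j hj hij
        obtain ⟨s, hs, rfl⟩ := Finset.mem_image.mp (Finset.mem_coe.mp hi)
        obtain ⟨t, ht, rfl⟩ := Finset.mem_image.mp (Finset.mem_coe.mp hj)
        exact hinjB _ (g1 s (Finset.sdiff_subset_sdiff (Finset.subset_univ _)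
          (Finset.Subset.refl A) hs)) _ (g1 t (Finset.sdiff_subset_sdiff (Finset.subset_univ _)
          (Finset.Subset.refl A) ht)) hij
      rw [c1, c2, ← Finset.card_union_of_disjoint]
      · apply Finset.card_le_card
        intro Y hY
        rcases Finset.mem_union.mp hY with hY | hY
        · obtain ⟨j, hj, rfl⟩ := Finset.mem_image.mp hY
          obtain ⟨s, hs, rfl⟩ := Finset.mem_image.mp hj
          obtain ⟨hs1, hs2⟩ := Finset.mem_inter.mp hs
          refine Finset.mem_filter.mpr ⟨?_, ⟨s, Finset.mem_inter.mpr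
            ⟨(hFA _ _).mpr ⟨hs1, rfl⟩, hs2⟩⟩⟩
          rw [hPparts]
          exact Finset.mem_union_left _ ((hQ _).mpr ⟨f s, f1 s hs1, rfl⟩)
        · obtain ⟨j, hj, rfl⟩ := Finset.mem_image.mp hY
          obtain ⟨s, hs, rfl⟩ := Finset.mem_image.mp hj
          obtain ⟨hs1, hs2⟩ := Finset.mem_sdiff.mp hs
          refine Finset.mem_filter.mpr ⟨?_, ⟨s, Finset.mem_inter.mpr
            ⟨(hFB _ _).mpr ⟨hs2, rfl⟩, hs1⟩⟩⟩
          rw [hPparts]
          exact Finset.mem_union_right _ ((hR _).mpr ⟨g s, g1 s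
            (Finset.mem_sdiff.mpr ⟨Finset.mem_univ _, hs2⟩), rfl⟩)
      · refine hQR.mono ?_ ?_
        · intro Y hY
          obtain ⟨j, hj, rfl⟩ := Finset.mem_image.mp hY
          obtain ⟨s, hs, rfl⟩ := Finset.mem_image.mp hj
          exact (hQ _).mpr ⟨f s, f1 s (Finset.mem_inter.mp hs).1, rfl⟩
        · intro Y hY
          obtain ⟨j, hj, rfl⟩ := Finset.mem_image.mp hY
          obtain ⟨s, hs, rfl⟩ := Finset.mem_image.mp hj
          exact (hR _).mpr ⟨g s, g1 s (Finset.mem_sdiff.mpr ⟨Finset.mem_univ _,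
            (Finset.mem_sdiff.mp hs).2⟩), rfl⟩
    have hcount' : (((A ∩ X).image f).card : ℤ) + ((X \ A).image g).card ≤
        ((P.parts.filter fun Y => (Y ∩ X).Nonempty).card : ℤ) := by exact_mod_cast hcount
    exact max_le (hk.1.trans hcount') (hk.2.trans hcount')

lemma indepSet_empty (m : ℕ) (p : Finset S → ℤ) (hb : ∀ X : Finset S, p X ≤ (X.card : ℤ)) :
    IndepSet m p ∅ := by
  intro X
  have := hb X
  rw [Finset.sdiff_empty]
  omega

lemma indepSet_subset (m : ℕ) (p : Finset S → ℤ) :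
    ∀ ⦃I J : Finset S⦄, IndepSet m p J → I ⊆ J → IndepSet m p I := by
  intro I J hJ hIJ X
  have h1 := hJ X
  have h2 : (X \ J).card ≤ (X \ I).card :=
    Finset.card_le_card (Finset.sdiff_subset_sdiff (Finset.Subset.refl X) hIJ)
  omega

lemma indepSet_aug (m : ℕ) (p : Finset S → ℤ) (hp : SkewSupermodular p) :
    ∀ ⦃I J : Finset S⦄, IndepSet m p I → IndepSet m p J → I.card < J.card →
      ∃ e ∈ J, e ∉ I ∧ IndepSet m p (insert e I) := by
  intro I J hI hJ hIJ
  by_contra hno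
  push Not at hno
  have hcov : ∀ {K : Finset S}, IndepSet m p K → Cov univ (sh p m) (univ \ K) := by
    intro K hK Z _
    have h1 := hK Z
    have e : (univ \ K) ∩ Z = Z \ K := by
      ext x; simp only [mem_inter, mem_sdiff, mem_univ, true_and]; tauto
    rw [e]
    unfold sh
    omega
  have hind : ∀ {K : Finset S}, Cov univ (sh p m) (univ \ K) → IndepSet m p K := by
    intro K hK Z
    have h1 := hK Z (Finset.subset_univ _)
    have e : (univ \ K) ∩ Z = Z \ K := by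
      ext x; simp only [mem_inter, mem_sdiff, mem_univ, true_and]; tauto
    rw [e] at h1
    unfold sh at h1
    omega
  -- apply the minimality lemma with `V` the complement of the common complement
  obtain ⟨hlow, _⟩ := min_of_tight (U := univ) (q := sh p m) (skew_sh (skewOn_univ hp) m)
    (B := univ \ I) (V := I ∪ J) (Finset.subset_univ _) (hcov hI) (by
      intro x hx
      simp only [mem_sdiff, mem_univ, true_and, mem_union] at hx ⊢
      tauto) (by
      intro b hb'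
      obtain ⟨hb1, hb2⟩ := Finset.mem_inter.mp hb'
      have hbI : b ∉ I := (Finset.mem_sdiff.mp hb1).2
      have hbJ : b ∈ J := by
        rcases Finset.mem_union.mp hb2 with h | h
        · exact absurd h hbI
        · exact h
      apply tight_of_not_erase (hcov hI) hb1
      intro hc
      apply hno b hbJ hbI
      apply hind
      have e : univ \ insert b I = (univ \ I).erase b := by
        ext x; simp only [mem_sdiff, mem_univ, true_and, mem_insert, mem_erase]; tauto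
      rw [e]
      exact hc)
  have hle := low_le (Finset.subset_univ _) (hcov hJ) (I ∪ J)
  rw [← hlow] at hle
  have e1 : (univ \ I) ∩ (I ∪ J) = J \ I := by
    ext x; simp only [mem_inter, mem_sdiff, mem_univ, true_and, mem_union]; tauto
  have e2 : (univ \ J) ∩ (I ∪ J) = I \ J := by
    ext x; simp only [mem_inter, mem_sdiff, mem_univ, true_and, mem_union]; tauto
  rw [e1, e2] at hle
  have h3 := Finset.card_sdiff_add_card_inter I J
  have h4 := Finset.card_sdiff_add_card_inter J I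
  rw [Finset.inter_comm J I] at h4
  omega

/-- The matroid whose independent sets are given by `IndepSet`. -/
noncomputable def matroidOf (m : ℕ) (p : Finset S → ℤ) (hp : SkewSupermodular p)
    (hb : ∀ X : Finset S, p X ≤ (X.card : ℤ)) : Matroid S :=
  (IndepMatroid.ofFinset Set.univ (IndepSet m p) (indepSet_empty m p hb) (indepSet_subset m p)
    (indepSet_aug m p hp) (fun _ _ => Set.subset_univ _)).matroid

lemma matroidOf_indep (m : ℕ) (p : Finset S → ℤ) (hp : SkewSupermodular p)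
    (hb : ∀ X : Finset S, p X ≤ (X.card : ℤ)) (A : Finset S) :
    (matroidOf m p hp hb).Indep (A : Set S) ↔ IndepSet m p A := by
  unfold matroidOf
  rw [IndepMatroid.matroid_Indep, IndepMatroid.ofFinset_indep]

/-- **Main theorem.** Let `p₁, p₂` be skew-supermodular functions on a finite set `S` and
`m₁ n₁ + m₂ n₂ = |S|`, `max (p₁, p₂) ≤ min (|·|, m₁ + m₂)`, and `n₂ ≤ n₁` (which is no restriction,
by the first statement).

* For `i = 1, 2` the sets `A` with `p_i(X) ≤ |X \ A| + m₁` for all `X` are the independent sets of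
  a matroid `N_i`, and a feasible partition exists if and only if `N₁` and `N₂` have a common
  independent set of size `m₁ n₁`.
* A feasible partition exists if and only if
  `∑_{X ∈ F} (p₁(X) - m₁) + ∑_{Y ∈ G} (p₂(Y) - m₁) ≤ m₂ n₂ + |⋃ F ∩ ⋃ G|` for all families `F` and
  `G` of pairwise disjoint subsets of `S`.
* A feasible partition exists if and only if the linear system `0 ≤ y ≤ 1`, `y(S) = m₂ n₂`,
  `y(X) ≥ p_i(X) - m₁` (`X ⊆ S`, `i = 1, 2`) is solvable. -/
theorem result (m₁ m₂ n₁ n₂ : ℕ) (p₁ p₂ : Finset S → ℤ) (h : IsInput m₁ m₂ n₁ n₂ p₁ p₂) :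
    (Feasible m₁ m₂ n₁ n₂ p₁ p₂ ↔ Feasible m₂ m₁ n₂ n₁ p₁ p₂) ∧
    (n₂ ≤ n₁ →
      (∃ N₁ N₂ : Matroid S, N₁.E = Set.univ ∧ N₂.E = Set.univ ∧
        (∀ A : Finset S, N₁.Indep (A : Set S) ↔
          ∀ X : Finset S, p₁ X ≤ ((X \ A).card : ℤ) + m₁) ∧
        (∀ A : Finset S, N₂.Indep (A : Set S) ↔
          ∀ X : Finset S, p₂ X ≤ ((X \ A).card : ℤ) + m₁) ∧
        (Feasible m₁ m₂ n₁ n₂ p₁ p₂ ↔
          ∃ A : Finset S, N₁.Indep (A : Set S) ∧ N₂.Indep (A : Set S) ∧ A.card = m₁ * n₁)) ∧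
      (Feasible m₁ m₂ n₁ n₂ p₁ p₂ ↔
        ∀ F G : Finset (Finset S), (F : Set (Finset S)).PairwiseDisjoint id →
          (G : Set (Finset S)).PairwiseDisjoint id →
          ∑ X ∈ F, (p₁ X - (m₁ : ℤ)) + ∑ Y ∈ G, (p₂ Y - (m₁ : ℤ)) ≤
            ((m₂ * n₂ : ℕ) : ℤ) + ((F.biUnion id ∩ G.biUnion id).card : ℤ)) ∧
      (Feasible m₁ m₂ n₁ n₂ p₁ p₂ ↔
        ∃ y : S → ℝ, (∀ s, 0 ≤ y s ∧ y s ≤ 1) ∧ ∑ s, y s = ((m₂ * n₂ : ℕ) : ℝ) ∧
          ∀ X : Finset S, (p₁ X : ℝ) - m₁ ≤ ∑ s ∈ X, y s ∧ (p₂ X : ℝ) - m₁ ≤ ∑ s ∈ X, y s)) := by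
  refine ⟨⟨feasible_symm, feasible_symm⟩, fun hn => ?_⟩
  have fb := @exists_indep_of_feasible S _ _ m₁ m₂ n₁ n₂ p₁ p₂
  have bf : (∃ A : Finset S, IndepSet m₁ p₁ A ∧ IndepSet m₁ p₂ A ∧ A.card = m₁ * n₁) →
      Feasible m₁ m₂ n₁ n₂ p₁ p₂ := by
    rintro ⟨A, h1, h2, h3⟩
    exact feasible_of_upper h hn (upper_of_minmax h (minmax_of_indep h.size h1 h2 h3))
  refine ⟨?_, ?_, ?_⟩
  · refine ⟨matroidOf m₁ p₁ h.skew₁ (fun X => (bounds h).1 X (Finset.subset_univ _)),
      matroidOf m₁ p₂ h.skew₂ (fun X => (bounds h).2.1 X (Finset.subset_univ _)), rfl, rfl,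
      matroidOf_indep _ _ _ _, matroidOf_indep _ _ _ _, ?_⟩
    simp only [matroidOf_indep]
    exact ⟨fb, bf⟩
  · constructor
    · intro hf
      obtain ⟨A, h1, h2, h3⟩ := fb hf
      exact minmax_of_indep h.size h1 h2 h3
    · intro hm
      exact feasible_of_upper h hn (upper_of_minmax h hm)
  · constructor
    · intro hf
      obtain ⟨A, h1, h2, h3⟩ := fb hf
      exact lp_of_indep h.size h1 h2 h3
    · intro hm
      exact feasible_of_upper h hn (upper_of_lp h hm)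

end Pool.Agent.Results.MP_1195b1_lc.MatroidIntersection
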