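import Mathlib

/-!
# Skew-supermodular colouring with two prescribed class sizes needs exponentially many value-oracle
calls
-/

namespace Pool.Agent.Results.MP_1195b1_lc.OracleLowerBound

open Finset

/-- A deterministic adaptive query algorithm: it either stops with an output, or asks a question
`q` and continues depending on the answer. -/
inductive QueryAlg (Q A Out : Type) : Type
  | output (o : Out) : QueryAlg Q A Out
  | query (q : Q) (next : A → QueryAlg Q A Out) : QueryAlg Q A Out

namespace QueryAlg

variable {Q A Out : Type}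

/-- The output of the algorithm when the oracle answers according to `f`. -/
def run : QueryAlg Q A Out → (Q → A) → Out
  | output o, _ => o
  | query q next, f => (next (f q)).run f

/-- The number of oracle calls made when the oracle answers according to `f`. -/
def calls : QueryAlg Q A Out → (Q → A) → ℕ
  | output _, _ => 0
  | query q next, f => (next (f q)).calls f + 1

/-- The list of questions asked when the oracle answers according to `f`. -/
def asked : QueryAlg Q A Out → (Q → A) → List Q
  | output _, _ => []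
  | query q next, f => q :: (next (f q)).asked f

lemma asked_length (a : QueryAlg Q A Out) (f : Q → A) : (a.asked f).length = a.calls f := by
  induction a with
  | output o => rfl
  | query q next ih => simp [asked, calls, ih]

lemma run_congr (a : QueryAlg Q A Out) (f g : Q → A) (h : ∀ q ∈ a.asked f, f q = g q) :
    a.run f = a.run g := by
  induction a with
  | output o => rfl
  | query q next ih =>
    simp only [asked, List.mem_cons, forall_eq_or_imp] at h
    simp only [run]
    rw [← h.1]
    exact ih _ h.2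

end QueryAlg

/-- Skew-supermodular integer set functions on the ground set `Fin n`. -/
def SkewSupermodular {n : ℕ} (p : Finset (Fin n) → ℤ) : Prop :=
  ∀ X Y : Finset (Fin n), p X + p Y ≤ p (X ∩ Y) + p (X ∪ Y) ∨
    p X + p Y ≤ p (X \ Y) + p (Y \ X)

/-- The inputs of the problem: the ground set is `Fin n`, the numbers `m₁, m₂, n₁, n₂` are
positive with `m₁ n₁ + m₂ n₂ = n`, and `p₁, p₂` are skew-supermodular with
`max (p₁ X) (p₂ X) ≤ min |X| (m₁ + m₂)` for all `X`. -/
structure IsInput (n m₁ m₂ n₁ n₂ : ℕ) (p₁ p₂ : Finset (Fin n) → ℤ) : Prop where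
  hm₁ : 0 < m₁
  hm₂ : 0 < m₂
  hn₁ : 0 < n₁
  hn₂ : 0 < n₂
  size : m₁ * n₁ + m₂ * n₂ = n
  skew₁ : SkewSupermodular p₁
  skew₂ : SkewSupermodular p₂
  bound : ∀ X : Finset (Fin n), max (p₁ X) (p₂ X) ≤ min (X.card : ℤ) ((m₁ + m₂ : ℕ) : ℤ)

/-- There is a feasible partition: a partition `P` of the ground set with `m₁` classes (those in
`Q`) of size `n₁` and `m₂` classes (the other ones) of size `n₂`, such that every set `X` meets at
least `max (p₁ X) (p₂ X)` classes. -/
def Feasible (n m₁ m₂ n₁ n₂ : ℕ) (p₁ p₂ : Finset (Fin n) → ℤ) : Prop :=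
  ∃ P : Finpartition (Finset.univ : Finset (Fin n)), ∃ Q ⊆ P.parts,
    Q.card = m₁ ∧ (P.parts \ Q).card = m₂ ∧ (∀ Y ∈ Q, Y.card = n₁) ∧
    (∀ Y ∈ P.parts \ Q, Y.card = n₂) ∧
    ∀ X : Finset (Fin n),
      max (p₁ X) (p₂ X) ≤ ((P.parts.filter fun Y => (Y ∩ X).Nonempty).card : ℤ)

/-- An algorithm with value oracles: from `n, m₁, m₂, n₁, n₂` it produces an adaptive procedure
which asks for values of `p₁` (question `(false, X)`) and of `p₂` (question `(true, X)`) and
outputs a Boolean.  (No computability is required.) -/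
abbrev ColourAlg : Type :=
  (n m₁ m₂ n₁ n₂ : ℕ) → QueryAlg (Bool × Finset (Fin n)) ℤ Bool

/-- The pair of value oracles. -/
def oracle {n : ℕ} (p₁ p₂ : Finset (Fin n) → ℤ) (q : Bool × Finset (Fin n)) : ℤ :=
  if q.1 then p₂ q.2 else p₁ q.2

/-- The algorithm decides the existence of a feasible partition on all inputs. -/
def Decides (alg : ColourAlg) : Prop :=
  ∀ (n m₁ m₂ n₁ n₂ : ℕ) (p₁ p₂ : Finset (Fin n) → ℤ), IsInput n m₁ m₂ n₁ n₂ p₁ p₂ →
    ((alg n m₁ m₂ n₁ n₂).run (oracle p₁ p₂) = true ↔ Feasible n m₁ m₂ n₁ n₂ p₁ p₂)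

section Hard

variable {n : ℕ}

/-- The base function `-|X|`. -/
def pBase (X : Finset (Fin n)) : ℤ := - (X.card : ℤ)

/-- The function with the hidden set `A`. -/
def pHid (A X : Finset (Fin n)) : ℤ :=
  if X ⊆ A then max (- (X.card : ℤ)) (2 - ((A \ X).card : ℤ)) else - (X.card : ℤ)

/-- The function forcing `u` and `v` into different classes. -/
def pPair (U X : Finset (Fin n)) : ℤ := if U ⊆ X then 2 else 0

lemma pHid_ge (A X : Finset (Fin n)) : - (X.card : ℤ) ≤ pHid A X := by
  unfold pHid
  split_ifs
  · exact le_max_left _ _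
  · exact le_rfl

lemma pHid_ge' (A X : Finset (Fin n)) (h : X ⊆ A) : 2 - ((A \ X).card : ℤ) ≤ pHid A X := by
  unfold pHid
  rw [if_pos h]
  exact le_max_right _ _

lemma pHid_cases (A X : Finset (Fin n)) :
    pHid A X = - (X.card : ℤ) ∨ (X ⊆ A ∧ pHid A X = 2 - ((A \ X).card : ℤ)) := by
  unfold pHid
  split_ifs with h
  · rcases max_choice (- (X.card : ℤ)) (2 - ((A \ X).card : ℤ)) with h' | h'
    · left; exact h'
    · right; exact ⟨h, h'⟩
  · left; rfl

lemma skew_base : SkewSupermodular (pBase (n := n)) := by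
  intro X Y
  right
  unfold pBase
  have h1 : (X \ Y).card ≤ X.card := Finset.card_le_card Finset.sdiff_subset
  have h2 : (Y \ X).card ≤ Y.card := Finset.card_le_card Finset.sdiff_subset
  omega

lemma skew_pair (U : Finset (Fin n)) : SkewSupermodular (pPair U) := by
  intro X Y
  left
  unfold pPair
  by_cases h1 : U ⊆ X <;> by_cases h2 : U ⊆ Y
  · rw [if_pos h1, if_pos h2, if_pos (Finset.subset_inter h1 h2),
      if_pos (h1.trans Finset.subset_union_left)]
  · rw [if_pos h1, if_neg h2, if_pos (h1.trans Finset.subset_union_left)]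
    split_ifs <;> norm_num
  · rw [if_neg h1, if_pos h2, if_pos (h2.trans Finset.subset_union_right)]
    split_ifs <;> norm_num
  · rw [if_neg h1, if_neg h2]
    split_ifs <;> norm_num

lemma skew_hid (A : Finset (Fin n)) : SkewSupermodular (pHid A) := by
  have mixed : ∀ X Y : Finset (Fin n), X ⊆ A → pHid A X = 2 - ((A \ X).card : ℤ) →
      pHid A Y = - (Y.card : ℤ) → pHid A X + pHid A Y ≤ pHid A (X \ Y) + pHid A (Y \ X) := by
    intro X Y hX h1 h2
    have h3 := pHid_ge' A (X \ Y) (Finset.sdiff_subset.trans hX)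
    have h4 := pHid_ge A (Y \ X)
    have h5 : (A \ (X \ Y)).card = (A \ X).card + (X ∩ Y).card := by
      rw [← Finset.card_union_of_disjoint]
      · congr 1
        ext x
        simp only [Finset.mem_sdiff, Finset.mem_union, Finset.mem_inter]
        constructor
        · rintro ⟨ha, hb⟩
          by_cases hx : x ∈ X
          · right
            refine ⟨hx, ?_⟩
            by_contra hy
            exact hb ⟨hx, hy⟩
          · left; exact ⟨ha, hx⟩
        · rintro (⟨ha, hb⟩ | ⟨ha, hb⟩)
          · exact ⟨ha, fun h => hb h.1⟩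
          · exact ⟨hX ha, fun h => h.2 hb⟩
      · rw [Finset.disjoint_left]
        intro x hx hx'
        exact (Finset.mem_sdiff.mp hx).2 (Finset.mem_inter.mp hx').1
    have h6 : (Y \ X).card + (X ∩ Y).card = Y.card := by
      rw [Finset.inter_comm]
      exact Finset.card_sdiff_add_card_inter Y X
    rw [h1, h2]
    rw [h5] at h3
    push_cast at h3
    have h7 : ((Y \ X).card : ℤ) + (X ∩ Y).card = Y.card := by exact_mod_cast h6
    linarith
  intro X Y
  rcases pHid_cases A X with hX | ⟨hXA, hX⟩ <;> rcases pHid_cases A Y with hY | ⟨hYA, hY⟩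
  · right
    have h1 := pHid_ge A (X \ Y)
    have h2 := pHid_ge A (Y \ X)
    have h3 : ((X \ Y).card : ℤ) ≤ X.card := by
      exact_mod_cast Finset.card_le_card Finset.sdiff_subset
    have h4 : ((Y \ X).card : ℤ) ≤ Y.card := by
      exact_mod_cast Finset.card_le_card Finset.sdiff_subset
    rw [hX, hY]
    linarith
  · right
    have := mixed Y X hYA hY hX
    linarith
  · right
    exact mixed X Y hXA hX hY
  · left
    have h1 := pHid_ge' A (X ∩ Y) (Finset.inter_subset_left.trans hXA)
    have h2 := pHid_ge' A (X ∪ Y) (Finset.union_subset hXA hYA)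
    have h3 : (A \ (X ∩ Y)).card + (A \ (X ∪ Y)).card = (A \ X).card + (A \ Y).card := by
      rw [Finset.sdiff_inter_distrib_right, Finset.sdiff_union_distrib]
      exact Finset.card_union_add_card_inter _ _
    rw [hX, hY]
    have h4 : ((A \ (X ∩ Y)).card : ℤ) + (A \ (X ∪ Y)).card = (A \ X).card + (A \ Y).card := by
      exact_mod_cast h3
    linarith

lemma pHid_le (A X : Finset (Fin n)) (hA : 2 ≤ A.card) :
    pHid A X ≤ min (X.card : ℤ) 2 := by
  rcases pHid_cases A X with h | ⟨hXA, h⟩
  · rw [h]
    have : (0 : ℤ) ≤ X.card := by positivity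
    exact le_min (by linarith) (by linarith)
  · rw [h]
    have h1 : (A \ X).card + X.card = A.card := Finset.card_sdiff_add_card_eq_card hXA
    have h2 : ((A \ X).card : ℤ) + X.card = A.card := by exact_mod_cast h1
    have h3 : (2 : ℤ) ≤ A.card := by exact_mod_cast hA
    have h4 : (0 : ℤ) ≤ (A \ X).card := by positivity
    exact le_min (by linarith) (by linarith)

/-- Away from the large subsets of `A` the hidden set is not visible. -/
lemma pHid_eq (A X : Finset (Fin n)) (s : ℕ) (hA : A.card = 2 * s)
    (h : ¬ (X ⊆ A ∧ s ≤ X.card)) : pHid A X = pBase X := by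
  rcases pHid_cases A X with h' | ⟨hXA, h'⟩
  · exact h'
  · have hlt : X.card < s := by
      by_contra hcon
      exact h ⟨hXA, by omega⟩
    apply le_antisymm _ (pHid_ge A X)
    rw [h']
    have h1 : (A \ X).card + X.card = A.card := Finset.card_sdiff_add_card_eq_card hXA
    omega

end Hard

/-- The `j`-th element of the hidden set coded by `w`. -/
def emb {s : ℕ} (w : Fin (2 * s) → Bool) (j : Fin (2 * s)) : Fin (4 * s + 2) :=
  ⟨2 * j.val + (if w j then 1 else 0), by have := j.isLt; split_ifs <;> omega⟩

lemma emb_eq {s : ℕ} {w w' : Fin (2 * s) → Bool} {j j' : Fin (2 * s)}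
    (h : emb w j = emb w' j') : j = j' ∧ w j = w' j' := by
  have hv : (emb w j).val = (emb w' j').val := by rw [h]
  simp only [emb] at hv
  cases h1 : w j <;> cases h2 : w' j' <;> simp only [h1, h2] at hv ⊢ <;>
    simp at hv ⊢ <;> first | (apply Fin.ext; omega) | omega

/-- The hidden set coded by `w`. -/
def hidSet {s : ℕ} (w : Fin (2 * s) → Bool) : Finset (Fin (4 * s + 2)) :=
  Finset.univ.image (emb w)

lemma hidSet_card {s : ℕ} (w : Fin (2 * s) → Bool) : (hidSet w).card = 2 * s := by
  unfold hidSet
  rw [Finset.card_image_of_injective _ (fun j j' h => (emb_eq h).1), Finset.card_univ,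
    Fintype.card_fin]

/-- the pair of elements forced into different classes -/
def pair (s : ℕ) : Finset (Fin (4 * s + 2)) :=
  {⟨4 * s, by omega⟩, ⟨4 * s + 1, by omega⟩}

lemma pair_card (s : ℕ) : (pair s).card = 2 := by
  unfold pair
  rw [Finset.card_pair]
  intro h
  have := congrArg Fin.val h
  simp at this

lemma pair_disj {s : ℕ} (w : Fin (2 * s) → Bool) : Disjoint (hidSet w) (pair s) := by
  rw [Finset.disjoint_left]
  intro x hx hx'
  unfold hidSet at hx
  obtain ⟨j, _, rfl⟩ := Finset.mem_image.mp hx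
  unfold pair at hx'
  have hj := j.isLt
  rcases Finset.mem_insert.mp hx' with h | h
  · have := congrArg Fin.val h
    simp only [emb] at this
    split_ifs at this <;> omega
  · have := congrArg Fin.val (Finset.mem_singleton.mp h)
    simp only [emb] at this
    split_ifs at this <;> omega

lemma count {s : ℕ} (X : Finset (Fin (4 * s + 2))) (hX : s ≤ X.card) :
    (Finset.univ.filter fun w : Fin (2 * s) → Bool => X ⊆ hidSet w).card ≤ 2 ^ s := by
  classical
  by_cases hne : ∃ w0 : Fin (2 * s) → Bool, X ⊆ hidSet w0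
  · obtain ⟨w0, hw0⟩ := hne
    set J : Finset (Fin (2 * s)) := Finset.univ.filter fun j => emb w0 j ∈ X with hJ
    have hXJ : X ⊆ J.image (emb w0) := by
      intro x hx
      obtain ⟨j, _, hj⟩ := Finset.mem_image.mp (hw0 hx)
      rw [Finset.mem_image]
      refine ⟨j, ?_, hj⟩
      rw [hJ, Finset.mem_filter]
      refine ⟨Finset.mem_univ _, ?_⟩
      rw [hj]; exact hx
    have hJc : s ≤ J.card := by
      have h1 := Finset.card_le_card hXJ
      have h2 := Finset.card_image_le (s := J) (f := emb w0)
      omega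
    have hsub : (Finset.univ.filter fun w : Fin (2 * s) → Bool => X ⊆ hidSet w) ⊆
        Fintype.piFinset (fun j => if j ∈ J then {w0 j} else Finset.univ) := by
      intro w hw
      rw [Finset.mem_filter] at hw
      rw [Fintype.mem_piFinset]
      intro j
      split_ifs with hj
      · rw [Finset.mem_singleton]
        rw [hJ, Finset.mem_filter] at hj
        have h1 := hw.2 hj.2
        unfold hidSet at h1
        obtain ⟨j', _, hj'⟩ := Finset.mem_image.mp h1
        obtain ⟨h2, h3⟩ := emb_eq hj'
        rw [← h3, h2]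
      · exact Finset.mem_univ _
    refine (Finset.card_le_card hsub).trans ?_
    rw [Fintype.card_piFinset]
    have h1 : ∀ j : Fin (2 * s), (if j ∈ J then ({w0 j} : Finset Bool) else Finset.univ).card
        = if j ∈ J then 1 else 2 := by
      intro j
      split_ifs
      · rfl
      · rfl
    rw [Finset.prod_congr rfl (fun j _ => h1 j), Finset.prod_ite]
    simp only [Finset.prod_const_one, one_mul, Finset.prod_const]
    apply Nat.pow_le_pow_right (by norm_num)
    have h2 : (Finset.univ.filter fun j => j ∉ J).card + J.card = 2 * s := by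
      have h3 := Finset.card_compl_add_card J
      rw [Fintype.card_fin] at h3
      have h4 : (Finset.univ.filter fun j => j ∉ J) = Jᶜ := by
        ext j; simp
      rw [h4]; exact h3
    omega
  · push Not at hne
    have : (Finset.univ.filter fun w : Fin (2 * s) → Bool => X ⊆ hidSet w) = ∅ := by
      rw [Finset.filter_eq_empty_iff]
      intro w _
      exact hne w
    rw [this]
    simp

lemma input_base (s : ℕ) :
    IsInput (4 * s + 2) 1 1 (4 * s + 1) 1 pBase (pPair (pair s)) := by
  refine ⟨by omega, by omega, by omega, by omega, by omega, skew_base, skew_pair _, ?_⟩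
  intro X
  have h0 : (0 : ℤ) ≤ X.card := by positivity
  apply max_le
  · unfold pBase
    apply le_min <;> push_cast <;> linarith
  · unfold pPair
    split_ifs with h
    · have h1 := Finset.card_le_card h
      rw [pair_card] at h1
      have h2 : (2 : ℤ) ≤ X.card := by exact_mod_cast h1
      apply le_min <;> push_cast <;> linarith
    · apply le_min <;> push_cast <;> linarith

lemma input_hid (s : ℕ) (hs : 1 ≤ s) (w : Fin (2 * s) → Bool) :
    IsInput (4 * s + 2) 1 1 (4 * s + 1) 1 (pHid (hidSet w)) (pPair (pair s)) := by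
  refine ⟨by omega, by omega, by omega, by omega, by omega, skew_hid _, skew_pair _, ?_⟩
  intro X
  apply max_le
  · have := pHid_le (hidSet w) X (by rw [hidSet_card]; omega)
    exact_mod_cast this
  · exact (le_max_right _ _).trans ((input_base s).bound X)

lemma feasible_base (s : ℕ) :
    Feasible (4 * s + 2) 1 1 (4 * s + 1) 1 pBase (pPair (pair s)) := by
  classical
  set u : Fin (4 * s + 2) := ⟨4 * s, by omega⟩ with hu
  set v : Fin (4 * s + 2) := ⟨4 * s + 1, by omega⟩ with hv
  have huv : v ≠ u := by
    intro h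
    have := congrArg Fin.val h
    simp [hu, hv] at this
  have hvc : v ∈ ({u}ᶜ : Finset (Fin (4 * s + 2))) := by simp [huv]
  have hne : ({u}ᶜ : Finset (Fin (4 * s + 2))) ≠ {u} := by
    intro h
    rw [h] at hvc
    exact huv (Finset.mem_singleton.mp hvc)
  let P : Finpartition (Finset.univ : Finset (Fin (4 * s + 2))) :=
    { parts := {{u}ᶜ, {u}}
      supIndep := by
        rw [Finset.supIndep_pair hne]
        exact disjoint_compl_left
      sup_parts := by
        rw [Finset.sup_insert, Finset.sup_singleton]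
        simp
      bot_notMem := by
        intro h
        rcases Finset.mem_insert.mp h with h | h
        · have h1 : v ∈ (⊥ : Finset (Fin (4 * s + 2))) := by rw [h]; exact hvc
          simp at h1
        · have h1 : u ∈ (⊥ : Finset (Fin (4 * s + 2))) := by
            rw [Finset.mem_singleton.mp h]; exact Finset.mem_singleton_self u
          simp at h1 }
  have hparts : P.parts = {{u}ᶜ, {u}} := rfl
  have hdiff : P.parts \ {{u}ᶜ} = {{u}} := by
    rw [hparts]
    ext Y
    simp only [Finset.mem_sdiff, Finset.mem_insert, Finset.mem_singleton]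
    constructor
    · rintro ⟨h1 | h1, h2⟩
      · exact absurd h1 h2
      · exact h1
    · intro h
      exact ⟨Or.inr h, fun h' => hne (h'.symm.trans h)⟩
  refine ⟨P, {{u}ᶜ}, ?_, ?_, ?_, ?_, ?_, ?_⟩
  · rw [hparts]; simp
  · simp
  · rw [hdiff]; simp
  · intro Y hY
    rw [Finset.mem_singleton.mp hY, Finset.card_compl, Fintype.card_fin]
    simp
  · intro Y hY
    rw [hdiff, Finset.mem_singleton] at hY
    rw [hY]; simp
  · intro X
    have h0 : (0 : ℤ) ≤ X.card := by positivity
    apply max_le
    · unfold pBase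
      have : (0 : ℤ) ≤ ((P.parts.filter fun Y => (Y ∩ X).Nonempty).card : ℤ) := by positivity
      linarith
    · unfold pPair
      split_ifs with h
      · have huX : u ∈ X := h (by simp [pair, hu])
        have hvX : v ∈ X := h (by simp [pair, hv])
        have : P.parts.filter (fun Y => (Y ∩ X).Nonempty) = P.parts := by
          rw [Finset.filter_eq_self, hparts]
          intro Y hY
          rcases Finset.mem_insert.mp hY with h1 | h1
          · rw [h1]; exact ⟨v, Finset.mem_inter.mpr ⟨hvc, hvX⟩⟩
          · rw [Finset.mem_singleton.mp h1]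
            exact ⟨u, Finset.mem_inter.mpr ⟨Finset.mem_singleton_self u, huX⟩⟩
        rw [this, hparts, Finset.card_pair hne]
        norm_num
      · positivity

lemma infeasible_hid (s : ℕ) (w : Fin (2 * s) → Bool) :
    ¬ Feasible (4 * s + 2) 1 1 (4 * s + 1) 1 (pHid (hidSet w)) (pPair (pair s)) := by
  classical
  rintro ⟨P, Q, hQ, hQ1, hQ2, hY1, hY2, hX⟩
  obtain ⟨Y2, hY2eq⟩ := Finset.card_eq_one.mp hQ2
  have hY2mem : Y2 ∈ P.parts \ Q := by rw [hY2eq]; exact Finset.mem_singleton_self _
  have hY2c := hY2 Y2 hY2mem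
  obtain ⟨e, he⟩ := Finset.card_eq_one.mp hY2c
  have hparts : P.parts.card = 2 := by
    have := Finset.card_sdiff_add_card_eq_card hQ
    omega
  -- any set with requirement 2 contains `e`
  have key : ∀ X : Finset (Fin (4 * s + 2)),
      (2 : ℤ) ≤ max (pHid (hidSet w) X) (pPair (pair s) X) → e ∈ X := by
    intro X hX2
    have h1 := hX2.trans (hX X)
    have h2 : 2 ≤ (P.parts.filter fun Y => (Y ∩ X).Nonempty).card := by exact_mod_cast h1
    have h3 : P.parts.filter (fun Y => (Y ∩ X).Nonempty) = P.parts := by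
      apply Finset.eq_of_subset_of_card_le (Finset.filter_subset _ _)
      omega
    have h4 : Y2 ∈ P.parts.filter (fun Y => (Y ∩ X).Nonempty) := by
      rw [h3]; exact (Finset.mem_sdiff.mp hY2mem).1
    obtain ⟨x, hx⟩ := (Finset.mem_filter.mp h4).2
    rw [Finset.mem_inter, he, Finset.mem_singleton] at hx
    rw [← hx.1]; exact hx.2
  have h1 : e ∈ pair s := by
    apply key
    apply le_max_of_le_right
    unfold pPair
    rw [if_pos (Finset.Subset.refl _)]
  have h2 : e ∈ hidSet w := by
    apply key
    apply le_max_of_le_left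
    have := pHid_ge' (hidSet w) (hidSet w) (Finset.Subset.refl _)
    simpa using this
  exact (Finset.disjoint_left.mp (pair_disj w)) h2 h1

theorem lower_bound (alg : ColourAlg) (hd : Decides alg) (s : ℕ) (hs : 1 ≤ s) :
    2 ^ s ≤ (alg (4 * s + 2) 1 1 (4 * s + 1) 1).calls (oracle pBase (pPair (pair s))) := by
  classical
  by_contra hlt
  push Not at hlt
  set a := alg (4 * s + 2) 1 1 (4 * s + 1) 1 with ha
  set f := oracle (pBase (n := 4 * s + 2)) (pPair (pair s)) with hf
  have htrue : a.run f = true :=
    (hd _ _ _ _ _ _ _ (input_base s)).mpr (feasible_base s)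
  -- the hidden sets that are visible
  set bad : Finset (Fin (2 * s) → Bool) :=
    (a.asked f).toFinset.biUnion (fun q => if s ≤ q.2.card then
      Finset.univ.filter (fun w => q.2 ⊆ hidSet w) else ∅) with hbad
  have hbadc : bad.card < 2 ^ (2 * s) := by
    have h1 : bad.card ≤ (a.asked f).toFinset.card * 2 ^ s := by
      apply Finset.card_biUnion_le_card_mul
      intro q _
      split_ifs with h
      · exact count q.2 h
      · simp
    have h2 : (a.asked f).toFinset.card ≤ a.calls f := by
      rw [← a.asked_length f]; exact List.toFinset_card_le _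
    have h3 : 2 ^ (2 * s) = 2 ^ s * 2 ^ s := by rw [← pow_add]; congr 1; omega
    rw [h3]
    calc bad.card ≤ (a.asked f).toFinset.card * 2 ^ s := h1
      _ < 2 ^ s * 2 ^ s := Nat.mul_lt_mul_of_pos_right (by omega) (by positivity)
  obtain ⟨w, hw⟩ : ∃ w, w ∉ bad := by
    by_contra hcon
    push Not at hcon
    have : bad = Finset.univ := Finset.eq_univ_iff_forall.mpr hcon
    rw [this, Finset.card_univ, Fintype.card_fun, Fintype.card_bool, Fintype.card_fin] at hbadc
    omega
  have hagree : ∀ q ∈ a.asked f, f q = oracle (pHid (hidSet w)) (pPair (pair s)) q := by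
    intro q hq
    rw [hf]
    unfold oracle
    split_ifs
    · rfl
    · rw [pHid_eq (hidSet w) q.2 s (hidSet_card w)]
      rintro ⟨h1, h2⟩
      apply hw
      rw [hbad, Finset.mem_biUnion]
      refine ⟨q, List.mem_toFinset.mpr hq, ?_⟩
      rw [if_pos h2, Finset.mem_filter]
      exact ⟨Finset.mem_univ _, h1⟩
  have hrun := a.run_congr f _ hagree
  rw [htrue] at hrun
  exact infeasible_hid s w ((hd _ _ _ _ _ _ _ (input_hid s hs w)).mp hrun.symm)

lemma poly_lt_exp (p : Polynomial ℕ) : ∃ s : ℕ, 1 ≤ s ∧ p.eval (4 * s + 2) < 2 ^ s := by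
  have hb : ∀ x : ℕ, 1 ≤ x → p.eval x ≤ p.eval 1 * x ^ p.natDegree := by
    intro x hx
    rw [Polynomial.eval_eq_sum_range, Polynomial.eval_eq_sum_range, Finset.sum_mul]
    apply Finset.sum_le_sum
    intro i hi
    rw [Finset.mem_range] at hi
    have : x ^ i ≤ x ^ p.natDegree := Nat.pow_le_pow_right hx (by omega)
    simpa using Nat.mul_le_mul_left (p.coeff i) this
  set c := p.eval 1 with hc
  set d := p.natDegree with hd
  have ht : Filter.Tendsto (fun t : ℕ => (t : ℝ) ^ (d + 1) / (2 : ℝ) ^ t) Filter.atTop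
      (nhds 0) := tendsto_pow_const_div_const_pow_of_one_lt (d + 1) (by norm_num)
  have hev := ht.eventually (gt_mem_nhds (show (0 : ℝ) < 1 by norm_num))
  obtain ⟨N, hN⟩ := Filter.eventually_atTop.mp hev
  refine ⟨N + (c * 9 ^ d + 2) + 1, by omega, ?_⟩
  set t := N + (c * 9 ^ d + 2) + 1 with htdef
  have h1 := hN t (by omega)
  rw [div_lt_one (by positivity)] at h1
  have h2 : t ^ (d + 1) < 2 ^ t := by exact_mod_cast h1
  have h3 := hb (4 * t + 2) (by omega)
  have h4 : (4 * t + 2) ^ d ≤ (9 * t) ^ d := Nat.pow_le_pow_left (by omega) d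
  have h5 : c * (4 * t + 2) ^ d ≤ t ^ (d + 1) := by
    calc c * (4 * t + 2) ^ d ≤ c * (9 * t) ^ d := Nat.mul_le_mul_left c h4
      _ = (c * 9 ^ d) * t ^ d := by rw [mul_pow]; ring
      _ ≤ t * t ^ d := Nat.mul_le_mul_right _ (by omega)
      _ = t ^ (d + 1) := by ring
  omega

/-- **Skew-supermodular colouring with two prescribed class sizes cannot be decided with
polynomially many value-oracle calls.** -/
theorem result :
    (∀ alg : ColourAlg, Decides alg → ∀ s : ℕ, 1 ≤ s →
      ∃ p₁ p₂ : Finset (Fin (4 * s + 2)) → ℤ, IsInput (4 * s + 2) 1 1 (4 * s + 1) 1 p₁ p₂ ∧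
        2 ^ s ≤ (alg (4 * s + 2) 1 1 (4 * s + 1) 1).calls (oracle p₁ p₂)) ∧
    ¬ ∃ (alg : ColourAlg) (p : Polynomial ℕ), Decides alg ∧
      ∀ (n m₁ m₂ n₁ n₂ : ℕ) (p₁ p₂ : Finset (Fin n) → ℤ), IsInput n m₁ m₂ n₁ n₂ p₁ p₂ →
        (alg n m₁ m₂ n₁ n₂).calls (oracle p₁ p₂) ≤ p.eval n := by
  refine ⟨fun alg hd s hs => ⟨pBase, pPair (pair s), input_base s, lower_bound alg hd s hs⟩, ?_⟩
  rintro ⟨alg, p, hd, hp⟩
  obtain ⟨s, hs, hlt⟩ := poly_lt_exp p
  have h1 := lower_bound alg hd s hs
  have h2 := hp _ _ _ _ _ _ _ (input_base s)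
  omega

end Pool.Agent.Results.MP_1195b1_lc.OracleLowerBound
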